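import Pool.Agent.H39.Newt3.Stmts

/-! # Project NEWTON3: basic lemmas -/

set_option autoImplicit false

namespace Pool.Newt3

open MvPolynomial Pool.Agent.H39.MonoR Pool.Agent.H75.Mono Pool.Newt Pool.Newt2

section PolReg

variable {Φ Ψ : PowerSeries ℂ} {r : ℝ}

theorem Pol.zero : Pol 0 := ⟨0, fun N _ => by simp⟩

theorem Pol.add (h : Pol Φ) (h' : Pol Ψ) : Pol (Φ + Ψ) := by
  obtain ⟨N1, h1⟩ := h
  obtain ⟨N2, h2⟩ := h'
  exact ⟨max N1 N2, fun N hN => by
    rw [map_add, h1 N (le_of_max_le_left hN), h2 N (le_of_max_le_right hN), add_zero]⟩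

theorem Pol.neg (h : Pol Φ) : Pol (-Φ) := by
  obtain ⟨N1, h1⟩ := h
  exact ⟨N1, fun N hN => by rw [map_neg, h1 N hN, neg_zero]⟩

theorem Pol.sub (h : Pol Φ) (h' : Pol Ψ) : Pol (Φ - Ψ) := by
  rw [sub_eq_add_neg]
  exact h.add h'.neg

theorem Pol.smul (h : Pol Φ) (c : ℂ) : Pol (c • Φ) := by
  obtain ⟨N1, h1⟩ := h
  exact ⟨N1, fun N hN => by rw [PowerSeries.coeff_smul, h1 N hN, smul_zero]⟩

theorem Pol.sum {ι : Type*} (s : Finset ι) (F : ι → PowerSeries ℂ) (h : ∀ i ∈ s, Pol (F i)) :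
    Pol (∑ i ∈ s, F i) := by
  classical
  induction s using Finset.induction_on with
  | empty => simpa using Pol.zero
  | insert i s hi ih =>
    rw [Finset.sum_insert hi]
    exact (h i (Finset.mem_insert_self _ _)).add (ih fun j hj => h j (Finset.mem_insert_of_mem hj))

theorem Pol.of_poly (E : Polynomial ℂ) : Pol (E : PowerSeries ℂ) :=
  ⟨E.natDegree + 1, fun N hN => by
    rw [Polynomial.coeff_coe]
    exact Polynomial.coeff_eq_zero_of_natDegree_lt (by omega)⟩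

theorem Pol.exists_poly (h : Pol Φ) : ∃ E : Polynomial ℂ, (E : PowerSeries ℂ) = Φ := by
  obtain ⟨N1, h1⟩ := h
  refine ⟨PowerSeries.trunc N1 Φ, ?_⟩
  ext N
  rw [Polynomial.coeff_coe, PowerSeries.coeff_trunc]
  split_ifs with h
  · rfl
  · rw [h1 N (by omega)]

theorem Pol.poly_mul (h : Pol Φ) (E : Polynomial ℂ) : Pol ((E : PowerSeries ℂ) * Φ) := by
  obtain ⟨F, rfl⟩ := h.exists_poly
  rw [← Polynomial.coe_mul]
  exact Pol.of_poly _

theorem Pol.regC (h : Pol Φ) (r : ℝ) : RegC r Φ :=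
  ⟨1, fun z _ => by simp, by simpa using h⟩

theorem RegC.zero (r : ℝ) : RegC r 0 := Pol.zero.regC r

theorem RegC.add (h : RegC r Φ) (h' : RegC r Ψ) : RegC r (Φ + Ψ) := by
  obtain ⟨E, h1, h2⟩ := h
  obtain ⟨E', h3, h4⟩ := h'
  refine ⟨E * E', fun z hz => ?_, ?_⟩
  · rw [Polynomial.eval_mul]
    exact mul_ne_zero (h1 z hz) (h3 z hz)
  · have e : ((E * E' : Polynomial ℂ) : PowerSeries ℂ) * (Φ + Ψ) =
        (E' : PowerSeries ℂ) * ((E : PowerSeries ℂ) * Φ) +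
          (E : PowerSeries ℂ) * ((E' : PowerSeries ℂ) * Ψ) := by
      rw [Polynomial.coe_mul]
      ring
    rw [e]
    exact (h2.poly_mul _).add (h4.poly_mul _)

theorem RegC.poly_mul (h : RegC r Φ) (F : Polynomial ℂ) : RegC r ((F : PowerSeries ℂ) * Φ) := by
  obtain ⟨E, h1, h2⟩ := h
  refine ⟨E, h1, ?_⟩
  have e : (E : PowerSeries ℂ) * ((F : PowerSeries ℂ) * Φ) =
      (F : PowerSeries ℂ) * ((E : PowerSeries ℂ) * Φ) := by ring
  rw [e]
  exact h2.poly_mul _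

theorem RegC.smul (h : RegC r Φ) (c : ℂ) : RegC r (c • Φ) := by
  have := h.poly_mul (Polynomial.C c)
  rwa [Polynomial.coe_C, ← PowerSeries.smul_eq_C_mul] at this

theorem RegC.C_mul (h : RegC r Φ) (c : ℂ) : RegC r (PowerSeries.C c * Φ) := by
  rw [← PowerSeries.smul_eq_C_mul]
  exact h.smul c

theorem RegC.neg (h : RegC r Φ) : RegC r (-Φ) := by
  have := h.smul (-1)
  rwa [neg_one_smul] at this

theorem RegC.sub (h : RegC r Φ) (h' : RegC r Ψ) : RegC r (Φ - Ψ) := by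
  rw [sub_eq_add_neg]
  exact h.add h'.neg

theorem RegC.sum {ι : Type*} (s : Finset ι) (F : ι → PowerSeries ℂ) (h : ∀ i ∈ s, RegC r (F i)) :
    RegC r (∑ i ∈ s, F i) := by
  classical
  induction s using Finset.induction_on with
  | empty => simpa using RegC.zero r
  | insert i s hi ih =>
    rw [Finset.sum_insert hi]
    exact (h i (Finset.mem_insert_self _ _)).add (ih fun j hj => h j (Finset.mem_insert_of_mem hj))

/-- factors without zeros on the circle can be removed -/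
theorem RegC.of_mul (E : Polynomial ℂ) (hE : ∀ z : ℂ, ‖z‖ = r → E.eval z ≠ 0)
    (h : RegC r ((E : PowerSeries ℂ) * Φ)) : RegC r Φ := by
  obtain ⟨E', h1, h2⟩ := h
  refine ⟨E' * E, fun z hz => ?_, ?_⟩
  · rw [Polynomial.eval_mul]
    exact mul_ne_zero (h1 z hz) (hE z hz)
  · rwa [Polynomial.coe_mul, mul_assoc]

/-- the zeros of `1 - x^(-n) T^N` -/
theorem den_eval_ne {x : ℝ} (hx : 1 < x) {n N : ℕ} {β : ℝ} (hβ : β * N ≠ n) {z : ℂ}
    (hz : ‖z‖ = x ^ β) :
    (1 - Polynomial.C ((x : ℂ)⁻¹ ^ n) * Polynomial.X ^ N : Polynomial ℂ).eval z ≠ 0 := by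
  have hx0 : 0 < x := zero_lt_one.trans hx
  intro h
  rw [Polynomial.eval_sub, Polynomial.eval_one, Polynomial.eval_mul, Polynomial.eval_C,
    Polynomial.eval_pow, Polynomial.eval_X, sub_eq_zero] at h
  have h1 : ‖((x : ℂ)⁻¹ ^ n * z ^ N)‖ = 1 := by rw [← h, norm_one]
  rw [norm_mul, norm_pow, norm_inv, norm_pow, hz, Complex.norm_real, Real.norm_eq_abs,
    abs_of_pos hx0] at h1
  have h2 : (x ^ β) ^ N = x ^ n := by
    have h5 : x ^ n ≠ 0 := (pow_pos hx0 n).ne'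
    rw [inv_pow] at h1
    have h6 := congrArg (fun y => x ^ n * y) h1
    rw [show x ^ n * ((x ^ n)⁻¹ * (x ^ β) ^ N) = (x ^ β) ^ N by rw [← mul_assoc, mul_inv_cancel₀ h5, one_mul],
      mul_one] at h6
    exact h6
  rw [← Real.rpow_natCast (x ^ β) N, ← Real.rpow_mul hx0.le, ← Real.rpow_natCast x n] at h2
  exact hβ ((Real.strictMono_rpow_of_base_gt_one hx).injective h2)

end PolReg

section Pw

variable {I : Type} [Fintype I]

theorem pw_zero (p : I → ℂˣ) : pw p 0 = 1 := by simp [pw]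

theorem pw_add (p : I → ℂˣ) (m n : I → ℤ) : pw p (m + n) = pw p m * pw p n := by
  simp [pw, zpow_add, Finset.prod_mul_distrib]

theorem pw_neg (p : I → ℂˣ) (m : I → ℤ) : pw p (-m) = (pw p m)⁻¹ := by
  simp [pw]

theorem pw_single [DecidableEq I] (p : I → ℂˣ) (i : I) (n : ℤ) : pw p (Pi.single i n) = p i ^ n := by
  unfold pw
  rw [Finset.prod_eq_single i]
  · rw [Pi.single_eq_same]
  · intro j _ hj
    rw [Pi.single_eq_of_ne hj, zpow_zero]
  · exact fun h => absurd (Finset.mem_univ i) h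

theorem evp_single (p : I → ℂˣ) (m : I → ℤ) (c : ℂ) :
    evp p (AddMonoidAlgebra.single m c) = c * ((pw p m : ℂˣ) : ℂ) := by
  unfold evp
  rw [AddMonoidAlgebra.lift_single, smul_eq_mul]
  rfl

theorem tw_single (p : I → ℂˣ) (m : I → ℤ) (c : ℂ) :
    tw p (AddMonoidAlgebra.single m c) =
      AddMonoidAlgebra.single m (c * ((pw p (-m) : ℂˣ) : ℂ)) := by
  unfold tw
  rw [AddMonoidAlgebra.lift_single]
  show c • AddMonoidAlgebra.single m ((pw p (-m) : ℂˣ) : ℂ) = _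
  rw [AddMonoidAlgebra.smul_single, smul_eq_mul]

theorem evp_one_single (m : I → ℤ) (c : ℂ) :
    evp (1 : I → ℂˣ) (AddMonoidAlgebra.single m c) = c := by
  rw [evp_single]
  simp [pw]

theorem evp_tw (p : I → ℂˣ) (h : GR I) : evp p (tw p h) = evp (1 : I → ℂˣ) h := by
  have e : (evp p).comp (tw p) = evp (1 : I → ℂˣ) := by
    refine AddMonoidAlgebra.algHom_ext (R := ℂ) (A := ℂ) (M := I → ℤ) (B := ℂ) (fun m => ?_) ?_
    · rw [AlgHom.comp_apply, tw_single, evp_single, evp_one_single, pw_neg, one_mul]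
      exact Units.inv_mul _
    · exact Subsingleton.elim _ _
  exact DFunLike.congr_fun e h

/-- the logarithm of `|p^m|` -/
theorem log_pw (p : I → ℂˣ) (m : I → ℤ) :
    Real.log ‖((pw p m : ℂˣ) : ℂ)‖ = ∑ i, (m i : ℝ) * Real.log ‖(p i : ℂ)‖ := by
  unfold pw
  rw [Units.coe_prod, norm_prod, Real.log_prod]
  · refine Finset.sum_congr rfl fun i _ => ?_
    rw [Units.val_zpow_eq_zpow_val, norm_zpow, Real.log_zpow]
  · intro i _
    exact norm_ne_zero_iff.2 (Units.ne_zero _)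

theorem mem_Zr {t0 : I → ℝ} {δ : I → ℤ} {i : I} :
    i ∈ Zr t0 δ ↔ ∃ m : ℤ, t0 i = -m ∧ δ i < m := by
  classical
  simp [Zr]

end Pw

section Functional

variable {σ I : Type} [Fintype σ] [Fintype I] (a : I → σ → ℕ)

/-- induction for the functional -/
theorem Lc_induction {X : ℂ} {φ : Co σ I → ℤ → ℂ} (p : PowerSeries ℂ → Prop) (h0 : p 0)
    (hadd : ∀ Φ Ψ, p Φ → p Ψ → p (Φ + Ψ)) (hsmul : ∀ (c : ℂ) Φ, p Φ → p (c • Φ))
    (h : ∀ m : I → ℤ, p (SerC a X (shf φ m))) (g : GR I) : p (Lc a X φ g) := by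
  induction g using AddMonoidAlgebra.induction_linear with
  | zero => rw [map_zero]; exact h0
  | add f g hf hg => rw [map_add]; exact hadd _ _ hf hg
  | single m c => rw [Lc_single]; exact hsmul c _ (h m)

theorem Lc_pol {X : ℂ} {φ : Co σ I → ℤ → ℂ} (h : ∀ m : I → ℤ, Pol (SerC a X (shf φ m)))
    (g : GR I) : Pol (Lc a X φ g) :=
  Lc_induction a Pol Pol.zero (fun _ _ h h' => h.add h') (fun c _ h => h.smul c) h g

theorem Lc_regC {X : ℂ} {φ : Co σ I → ℤ → ℂ} {r : ℝ} (h : ∀ m : I → ℤ, RegC r (SerC a X (shf φ m)))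
    (g : GR I) : RegC r (Lc a X φ g) :=
  Lc_induction a (RegC r) (RegC.zero r) (fun _ _ h h' => h.add h') (fun c _ h => h.smul c) h g

omit [Fintype σ] [Fintype I] in
theorem shf_zero (φ : Co σ I → ℤ → ℂ) : shf φ 0 = φ := by
  funext ξ
  rcases ξ with _ | l | i
  · rfl
  · rfl
  · funext v
    show φ (some (Sum.inr i)) (v - 0) = _
    rw [sub_zero]

theorem Lc_one (X : ℂ) (φ : Co σ I → ℤ → ℂ) : Lc a X φ 1 = SerC a X φ := by
  have : (1 : GR I) = AddMonoidAlgebra.single 0 1 := rfl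
  rw [this, Lc_single, shf_zero, one_smul]

/-- complex and real sums -/
theorem serC_ofReal (X : ℝ) (φ : Co σ I → ℤ → ℝ) :
    SerC a (X : ℂ) (fun ξ v => (φ ξ v : ℂ)) = PowerSeries.map Complex.ofRealHom (Ser a X φ) := by
  ext N
  rw [PowerSeries.coeff_map]
  unfold SerC Ser
  rw [PowerSeries.coeff_mk, PowerSeries.coeff_mk]
  show _ = ((∑' u : σ → ℤ, (∏ ξ, φ ξ (lam a u N ξ)) * X ^ (∑ l, u l) : ℝ) : ℂ)
  rw [Complex.ofReal_tsum]
  refine tsum_congr fun u => ?_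
  push_cast
  rfl

end Functional

end Pool.Newt3
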