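import Pool.Agent.H39.Newt2.Base

/-!
# Project NEWTON3 (MP_432c1b_ag): simplicial facets, definitions

Plan: /team-store/NEWTON3_PLAN.md. Notation of Newt/Defs.lean and Newt2/Defs.lean.
-/

set_option autoImplicit false

namespace Pool.Newt3

open MvPolynomial Pool.Agent.H39.MonoR Pool.Agent.H75.Mono Pool.Newt Pool.Newt2

/-- the coefficients vanish from some point on -/
def Pol (Φ : PowerSeries ℂ) : Prop := ∃ N0 : ℕ, ∀ N, N0 ≤ N → PowerSeries.coeff N Φ = 0

/-- a rational series without poles on the circle `|z| = r` -/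
def RegC (r : ℝ) (Φ : PowerSeries ℂ) : Prop :=
  ∃ E : Polynomial ℂ, (∀ z : ℂ, ‖z‖ = r → E.eval z ≠ 0) ∧ Pol ((E : PowerSeries ℂ) * Φ)

/-- the exponents on every facet of the ratio `-α` are affinely independent -/
def Simp {σ I : Type} [Fintype σ] [Fintype I] (a : I → σ → ℕ) (α : ℚ) : Prop :=
  ∀ w : σ → ℕ, Rigid a w → 0 < Nw a w → ((∑ l, w l : ℕ) : ℚ) = -α * (Nw a w : ℚ) →
    ∀ κ ∈ Ker a, (∀ i, i ∉ face a w → κ i = 0) → κ = 0

section Grp

variable {I : Type} [Fintype I]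

/-- the group ring of `ℤ^I` -/
abbrev GR (I : Type) : Type := AddMonoidAlgebra ℂ (I → ℤ)

/-- `p^m` -/
noncomputable def pw (p : I → ℂˣ) (m : I → ℤ) : ℂˣ := ∏ i, p i ^ m i

/-- evaluation at the point `p` -/
noncomputable def evp (p : I → ℂˣ) : GR I →ₐ[ℂ] ℂ :=
  AddMonoidAlgebra.lift ℂ ℂ (I → ℤ)
    { toFun := fun m => ((pw p (Multiplicative.toAdd m) : ℂˣ) : ℂ)
      map_one' := by simp [pw]
      map_mul' := fun m n => by
        rw [← Units.val_mul]
        congr 1
        simp [pw, zpow_add, Finset.prod_mul_distrib] }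

/-- the twist which moves `1` to `p`: `e^m ↦ p^(-m) e^m` -/
noncomputable def tw (p : I → ℂˣ) : GR I →ₐ[ℂ] GR I :=
  AddMonoidAlgebra.lift ℂ (GR I) (I → ℤ)
    { toFun := fun m => AddMonoidAlgebra.single (Multiplicative.toAdd m)
        ((pw p (-(Multiplicative.toAdd m)) : ℂˣ) : ℂ)
      map_one' := by
        simp only [toAdd_one, neg_zero]
        have : pw p 0 = 1 := by simp [pw]
        rw [this]
        rfl
      map_mul' := fun m n => by
        rw [AddMonoidAlgebra.single_mul_single, ← Units.val_mul]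
        congr 2
        simp [pw, zpow_add, Finset.prod_mul_distrib, mul_comm] }

/-- linear forms over `ℂ` -/
noncomputable def lfC (β : I → ℤ) : MvPolynomial I ℂ := ∑ i, C (β i : ℂ) * X i

open Classical in
/-- the indices `i` such that `-t0_i` is an integer greater than `δ_i` -/
noncomputable def Zr (t0 : I → ℝ) (δ : I → ℤ) : Finset I :=
  Finset.univ.filter fun i => ∃ m : ℤ, t0 i = -m ∧ δ i < m

end Grp

section Lattice

variable {σ I : Type} [Fintype σ] [Fintype I]

/-- the factors of the exponents are shifted by `m` -/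
def shf (φ : Co σ I → ℤ → ℂ) (m : I → ℤ) : Co σ I → ℤ → ℂ
  | none => φ none
  | some (Sum.inl l) => φ (some (Sum.inl l))
  | some (Sum.inr i) => fun v => φ (some (Sum.inr i)) (v - m i)

/-- complex lattice sums -/
noncomputable def SerC (a : I → σ → ℕ) (X : ℂ) (φ : Co σ I → ℤ → ℂ) : PowerSeries ℂ :=
  PowerSeries.mk fun N => ∑' u : σ → ℤ, (∏ ξ, φ ξ (lam a u N ξ)) * X ^ (∑ l, u l)

/-- all shifts converge -/
def OKs (a : I → σ → ℕ) (X : ℂ) (φ : Co σ I → ℤ → ℂ) : Prop :=
  ∀ (m : I → ℤ) (N : ℤ), Summable fun u : σ → ℤ =>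
    (∏ ξ, shf φ m ξ (lam a u N ξ)) * X ^ (∑ l, u l)

/-- the functional `∑ h_m e^m ↦ ∑ h_m SerC (shf φ m)` -/
noncomputable def Lc (a : I → σ → ℕ) (X : ℂ) (φ : Co σ I → ℤ → ℂ) : GR I →ₗ[ℂ] PowerSeries ℂ where
  toFun h := Finsupp.lsum ℂ
    (fun m => LinearMap.toSpanSingleton ℂ (PowerSeries ℂ) (SerC a X (shf φ m))) h.coeff
  map_add' h h' := by rw [AddMonoidAlgebra.coeff_add, map_add]
  map_smul' c h := by rw [AddMonoidAlgebra.coeff_smul, map_smul, RingHom.id_apply]

theorem Lc_single (a : I → σ → ℕ) (X : ℂ) (φ : Co σ I → ℤ → ℂ) (m : I → ℤ) (c : ℂ) :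
    Lc a X φ (AddMonoidAlgebra.single m c) = c • SerC a X (shf φ m) := by
  show Finsupp.lsum ℂ (fun m => LinearMap.toSpanSingleton ℂ (PowerSeries ℂ)
    (SerC a X (shf φ m))) (AddMonoidAlgebra.single m c).coeff = _
  rw [AddMonoidAlgebra.coeff_single, Finsupp.lsum_single, LinearMap.toSpanSingleton_apply]

open Classical in
/-- the factors `1_{≥ 0}`, and `δ_0` on `P` -/
noncomputable def phz (P : Finset I) : Co σ I → ℤ → ℂ
  | none => fun v => if 1 ≤ v then 1 else 0
  | some (Sum.inl _) => fun v => if 0 ≤ v then 1 else 0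
  | some (Sum.inr i) => fun v => if i ∈ P then (if v = 0 then 1 else 0) else if 0 ≤ v then 1 else 0

/-- the product of the `e^(τ_i) - X`, `i ∉ P` -/
noncomputable def yy [DecidableEq I] (X : ℂ) (P : Finset I) : GR I :=
  ∏ i ∈ Pᶜ, (AddMonoidAlgebra.single (Pi.single i 1) 1 - AddMonoidAlgebra.single 0 X)

open Classical in
/-- the factors at the point `p`: `1_{≥ 0}` for the variables in `Wf` and `δ_0` for the others; `1_{≥ 0}` for the
exponents in `Z`, `p_i^(-v) 1_{≥ 0}` on `E`, `δ_0` for the others -/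
noncomputable def phe (p : I → ℂˣ) (Wf : Finset σ) (Z E : Finset I) : Co σ I → ℤ → ℂ
  | none => fun v => if 1 ≤ v then 1 else 0
  | some (Sum.inl l) => fun v => if l ∈ Wf then (if 0 ≤ v then 1 else 0) else if v = 0 then 1 else 0
  | some (Sum.inr i) => fun v =>
      if i ∈ Z then (if 0 ≤ v then 1 else 0)
      else if i ∈ E then (if 0 ≤ v then ((p i ^ (-v) : ℂˣ) : ℂ) else 0)
      else if v = 0 then 1 else 0

/-- no lattice points far away: variables in `Wf`, equality (up to a constant) on `Q`, inequality elsewhere -/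
def Emp (a : I → σ → ℕ) (Wf : Finset σ) (Q : Finset I) : Prop :=
  ∀ c : ℕ, ∃ N0 : ℕ, ∀ (u : σ → ℤ) (N : ℕ), N0 ≤ N → (∀ l, 0 ≤ u l) → (∀ l, l ∉ Wf → u l = 0) →
    (∀ i, -(c : ℤ) ≤ (∑ l, u l * (a i l : ℤ)) - N) →
    (∀ i ∈ Q, (∑ l, u l * (a i l : ℤ)) - N ≤ c) → False

end Lattice

end Pool.Newt3
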