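import Pool.Agent.H39.Newt3.Base
import Pool.Agent.H39.Newt.Fin0

/-! # Project NEWTON3: the final composition -/

set_option autoImplicit false

namespace Pool.Newt3

open MvPolynomial Pool.Agent.H39.MonoR Pool.Agent.H75.Mono Pool.Newt Pool.Newt2

/-- the facets of the ratio `-α` can be labelled -/
def LabR {σ I : Type} [Fintype σ] [Fintype I] (a : I → σ → ℕ) (α : ℚ) : Prop :=
  ∃ (Y : Finset I) (l : I → σ), (∀ i ∈ Y, a i (l i) = 1) ∧ ∀ w, Rigid a w → 0 < Nw a w →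
    ((∑ j, w j : ℕ) : ℚ) = -α * (Nw a w : ℚ) → Lab a Y l w

theorem rat_div {x : ℕ} {N : ℕ} (hN : 0 < N) :
    ((x : ℕ) : ℚ) = -(-((x : ℕ) : ℚ) / (N : ℚ)) * (N : ℚ) := by
  have hN : (N : ℚ) ≠ 0 := by exact_mod_cast hN.ne'
  field_simp

theorem newton3_fin (hCof : SCof) (hRcg : SRcg) (hRec : SRec) (hRoo : SRoo) (hNdg : SNdg)
    (hZtb : SZtb)
    (k : Type) [Field k] [Algebra k ℂ] (σ I : Type) [Fintype σ] [Fintype I] [Nonempty I]
    (a : I → σ → ℕ) (c : I → k) (hc : ∀ i, c i ≠ 0) (hgen : Gen a c)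
    (h0 : poly a c ≠ 0) (hu : ¬ IsUnit (poly a c))
    (hB : ∀ w : σ → ℕ, Rigid a w → 0 < Nw a w → ∑ l, w l = Nw a w ∨
      (∃ w' : σ → ℕ, Good a w' ∧ 0 < Nw a w' ∧
        (∑ l, w l) * Nw a w' = (∑ l, w' l) * Nw a w) ∨
      Simp a (-((∑ j, w j : ℕ) : ℚ) / (Nw a w : ℚ)) ∨
      LabR a (-((∑ j, w j : ℕ) : ℚ) / (Nw a w : ℚ))) :
    ∃ S : Finset (ℤ × ℕ), (∀ p ∈ S, p.1 < 0 ∧ 0 < p.2) ∧
      Zmot k (poly a c) ∈ RS k (S : Set (ℤ × ℕ)) ∧ ∀ p ∈ S, IsRoot k (poly a c) (p.1 / p.2) := by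
  classical
  have : CharZero k := (algebraMap k ℂ).charZero_iff (FaithfulSMul.algebraMap_injective k ℂ) |>.2 inferInstance
  -- the genericity condition in `k`
  have hgenk : Genk a c := by
    have hinj : Function.Injective (((algebraMap k ℂ).toAddMonoidHom.toRatLinearMap) : k →ₗ[ℚ] ℂ) :=
      FaithfulSMul.algebraMap_injective k ℂ
    refine LinearIndependent.of_comp (((algebraMap k ℂ).toAddMonoidHom.toRatLinearMap) : k →ₗ[ℚ] ℂ) ?_
    have e : (⇑(((algebraMap k ℂ).toAddMonoidHom.toRatLinearMap) : k →ₗ[ℚ] ℂ) ∘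
        fun κ : Ker a => ∏ i, (c i) ^ ((κ : I → ℤ) i)) =
        fun κ : Ker a => ∏ i, (algebraMap k ℂ (c i)) ^ ((κ : I → ℤ) i) := by
      funext κ
      show algebraMap k ℂ (∏ i, (c i) ^ ((κ : I → ℤ) i)) = _
      rw [map_prod]
      exact Finset.prod_congr rfl fun i _ => map_zpow₀ _ _ _
    rw [e]
    exact hgen
  -- the bad ratios
  let B : Set ℚ := {α | (Simp a α ∧ ¬ IsRoot k (poly a c) α) ∨ LabR a α}
  have hBB : ∀ α ∈ B, (Simp a α ∧ ∃ K, Fintype.card I < K ∧ Nonempty (Rec a ∅ α K)) ∨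
      ∃ (Y : Finset I) (l : I → σ), (∀ i ∈ Y, a i (l i) = 1) ∧ ∀ w, Rigid a w → 0 < Nw a w →
        ((∑ j, w j : ℕ) : ℚ) = -α * (Nw a w : ℚ) → Lab a Y l w := by
    rintro α (⟨h1, h2⟩ | h)
    · refine Or.inl ⟨h1, Fintype.card I + 1, Nat.lt_succ_self _, ?_⟩
      unfold IsRoot at h2
      push Not at h2
      obtain ⟨b, hb, hb0⟩ := h2
      have h3 := hCof σ I k a c b hb
      have h4 := hRcg σ I k a c hc hgenk b α (Fintype.card I + 1) hb0 h3
      refine hRec σ I a ∅ α (Fintype.card I + 1) (fun κ _ hκ => ?_) h4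
      funext i
      exact hκ i (Finset.notMem_empty i)
    · exact Or.inr h
  obtain ⟨R, hR, hZ⟩ := hZtb k σ I a c hc (hNdg k σ I a c hc hgen) B hBB
  have hone : IsRoot k (poly a c) (-1) := (SR.one h0 hu).isRoot
  refine ⟨insert ((-1 : ℤ), (1 : ℕ)) (R.image fun w => (-((∑ j, w j : ℕ) : ℤ), Nw a w)), ?_, ?_, ?_⟩
  · intro p hp
    rw [Finset.mem_insert, Finset.mem_image] at hp
    rcases hp with rfl | ⟨w, hw, rfl⟩
    · exact ⟨by norm_num, by norm_num⟩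
    · refine ⟨?_, (hR w hw).2.1⟩
      show -((∑ j, w j : ℕ) : ℤ) < 0
      have h1 : 0 < ∑ j, w j := by
        by_contra h
        have h2 : ∀ j, w j = 0 := fun j => by
          have := Finset.single_le_sum (f := w) (fun j _ => Nat.zero_le _) (Finset.mem_univ j)
          omega
        have h3 := (hR w hw).2.1
        obtain ⟨i, hi⟩ := exists_mem_face a w
        rw [Nw_eq hi] at h3
        simp [dot, h2] at h3
      omega
  · have e : ((insert ((-1 : ℤ), (1 : ℕ)) (R.image fun w => (-((∑ j, w j : ℕ) : ℤ), Nw a w)) :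
        Finset (ℤ × ℕ)) : Set (ℤ × ℕ)) = ({((-1 : ℤ), (1 : ℕ))} ∪
        {p | ∃ w ∈ R, p = (-((∑ j, w j : ℕ) : ℤ), Nw a w)}) := by
      ext p
      simp only [Finset.coe_insert, Finset.coe_image, Set.mem_insert_iff, Set.mem_image,
        Finset.mem_coe, Set.mem_union, Set.mem_singleton_iff, Set.mem_ofPred_eq]
      constructor
      · rintro (h | ⟨w, hw, h⟩)
        · exact Or.inl h
        · exact Or.inr ⟨w, hw, h.symm⟩
      · rintro (h | ⟨w, hw, h⟩)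
        · exact Or.inl h
        · exact Or.inr ⟨w, hw, h.symm⟩
    rw [e]
    exact hZ
  · intro p hp
    rw [Finset.mem_insert, Finset.mem_image] at hp
    rcases hp with rfl | ⟨w, hw, rfl⟩
    · have e : (((-1 : ℤ), (1 : ℕ)).1 : ℚ) / (((-1 : ℤ), (1 : ℕ)).2 : ℚ) = -1 := by norm_num
      rw [e]
      exact hone
    · obtain ⟨h1, h2, hwB⟩ := hR w hw
      have hN : (Nw a w : ℚ) ≠ 0 := by exact_mod_cast h2.ne'
      have ecast : (((-((∑ j, w j : ℕ) : ℤ), Nw a w) : ℤ × ℕ).1 : ℚ) /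
            (((-((∑ j, w j : ℕ) : ℤ), Nw a w) : ℤ × ℕ).2 : ℚ) =
            -((∑ l, w l : ℕ) : ℚ) / (Nw a w : ℚ) := by
        show ((-((∑ j, w j : ℕ) : ℤ) : ℤ) : ℚ) / (Nw a w : ℚ) = _
        push_cast
        rfl
      rw [ecast]
      rcases hB w h1 h2 with h3 | ⟨w', h4, h5, h6⟩ | h3 | h3
      · have e : -((∑ l, w l : ℕ) : ℚ) / (Nw a w : ℚ) = -1 := by
          rw [h3]
          field_simp
        rw [e]
        exact hone
      · have hN' : (Nw a w' : ℚ) ≠ 0 := by exact_mod_cast h5.ne'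
        have e : -((∑ l, w l : ℕ) : ℚ) / (Nw a w : ℚ) =
            -((∑ l, w' l : ℕ) : ℚ) / (Nw a w' : ℚ) := by
          have h7 : ((∑ l, w l : ℕ) : ℚ) * (Nw a w' : ℚ) = ((∑ l, w' l : ℕ) : ℚ) * (Nw a w : ℚ) := by
            exact_mod_cast h6
          rw [div_eq_div_iff hN hN']
          linear_combination -h7
        rw [e]
        exact hRoo σ I k a c hc hgenk w' h4 h5
      · by_contra h7
        exact hwB (Or.inl ⟨h3, h7⟩)
      · exact absurd (Or.inr h3) hwB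

end Pool.Newt3
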