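import Pool.Agent.H39.Newt3.Fin0
import Pool.Agent.H39.Newt.GenCases

/-! # Project NEWTON3: the statement for a polynomial and its support -/

set_option autoImplicit false

namespace Pool.Newt3.HI

open MvPolynomial Pool.Newt
open Pool.Agent.H39.MonoR (Zmot RS IsRoot)
open Pool.Newt.HI (N Face Generic)

variable {k : Subfield ℂ} {n : ℕ}

/-- the weights `w'` which are normal vectors of facets, `N(w') > 0`, with `|w|/N(w) = |w'|/N(w')` -/
def Same (f : MvPolynomial (Fin n) k) (w w' : Fin n → ℕ) : Prop :=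
  HI.Rigid f w' ∧ 0 < N f w' ∧ (∑ l, w l) * N f w' = (∑ l, w' l) * N f w

/-- the facets of the ratio `|w|/N(w)` are simplicial: the exponents on each of them are affinely
independent -/
def Simplicial (f : MvPolynomial (Fin n) k) (w : Fin n → ℕ) : Prop :=
  ∀ w', Same f w w' → AffineIndependent ℚ (fun (m : Face f w') (l : Fin n) => (m.1 l : ℚ))

/-- the facets of the ratio `|w|/N(w)` are B1-facets with compatible apices: there are a set `Y` of
exponents and variables `l(m)`, `m ∈ Y`, `m_(l(m)) = 1`, such that each of these facets is a pyramid of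
height one over its part in `{m'_(l(m)) = 0}`, for some apex `m ∈ Y`, and no `m ∈ Y` on the facet is in
the affine span of the other exponents of the facet -/
def Labelled (f : MvPolynomial (Fin n) k) (w : Fin n → ℕ) : Prop :=
  ∃ (Y : Set (Fin n →₀ ℕ)) (l : (Fin n →₀ ℕ) → Fin n), (∀ m ∈ Y, m (l m) = 1) ∧
    ∀ w', Same f w w' →
      (∃ m ∈ Y, m ∈ Face f w' ∧ w' (l m) ≠ 0 ∧ ∀ m' ∈ Face f w', m' ≠ m → m' (l m) = 0) ∧
      ∀ m ∈ Y, m ∈ Face f w' → (fun j => (m j : ℚ)) ∉
        affineSpan ℚ {x : Fin n → ℚ | ∃ m' ∈ Face f w', m' ≠ m ∧ x = fun j => (m' j : ℚ)}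

theorem main (hCof : SCof) (hRcg : SRcg) (hRec : SRec) (hRoo : SRoo) (hNdg : SNdg) (hZtb : SZtb)
    (f : MvPolynomial (Fin n) k) (hf : ∃ l, pderiv l f ≠ 0) (hgen : Generic f)
    (hB : ∀ w, HI.Rigid f w → 0 < N f w → ∑ l, w l = N f w ∨
      (∃ w', HI.Good f w' ∧ 0 < N f w' ∧ (∑ l, w l) * N f w' = (∑ l, w' l) * N f w) ∨
      Simplicial f w ∨ Labelled f w) :
    ∃ S : Finset (ℤ × ℕ), (∀ p ∈ S, p.1 < 0 ∧ 0 < p.2) ∧
      Zmot k f ∈ RS k (S : Set (ℤ × ℕ)) ∧ ∀ p ∈ S, IsRoot k f (p.1 / p.2) := by
  classical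
  let a : f.support → Fin n → ℕ := fun m l => m.1 l
  let c : f.support → k := fun m => f.coeff m.1
  have hpoly : poly a c = f := by
    unfold poly
    have e1 : ∀ m : f.support, Finsupp.equivFunOnFinite.symm (a m) = m.1 := by
      intro m
      ext l
      rfl
    simp only [e1]
    rw [Finset.sum_coe_sort f.support (fun m => monomial m (f.coeff m))]
    exact (f.as_sum).symm
  have h0 : f ≠ 0 := by
    rintro rfl
    obtain ⟨l, hl⟩ := hf
    exact hl (map_zero _)
  have hu : ¬ IsUnit f := by
    intro h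
    rw [MvPolynomial.isUnit_iff_eq_C_of_isReduced] at h
    obtain ⟨r, -, hr⟩ := h
    obtain ⟨l, hl⟩ := hf
    exact hl (by rw [hr, pderiv_C])
  have hI : Nonempty f.support := by
    obtain ⟨m, hm⟩ := support_nonempty.2 h0
    exact ⟨⟨m, hm⟩⟩
  have hc : ∀ i, c i ≠ 0 := fun i => mem_support_iff.1 i.2
  have hdot : ∀ (w : Fin n → ℕ) (i : f.support), dot w (a i) = ∑ l, w l * i.1 l := fun w i => rfl
  have hN : ∀ w : Fin n → ℕ, Nw a w = N f w := by
    intro w
    unfold Nw HI.N
    congr 1
    ext d
    constructor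
    · rintro ⟨i, rfl⟩
      exact ⟨i.1, i.2, rfl⟩
    · rintro ⟨m, hm, rfl⟩
      exact ⟨⟨m, hm⟩, rfl⟩
  have hface : ∀ (w : Fin n → ℕ) (i : f.support), i ∈ face a w ↔ i.1 ∈ Face f w := by
    intro w i
    rw [mem_face_iff, hN]
    exact ⟨fun h => ⟨i.2, h⟩, fun h => h.2⟩
  have hrig : ∀ w : Fin n → ℕ, Pool.Newt.Rigid a w → HI.Rigid f w := by
    intro w h
    unfold Pool.Newt.Rigid at h
    unfold HI.Rigid
    let e : Face f w → face a w := fun m => ⟨⟨m.1, m.2.1⟩, (hface w ⟨m.1, m.2.1⟩).2 m.2⟩
    have he : Function.Surjective e := by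
      intro i
      exact ⟨⟨i.1.1, (hface w i.1).1 i.2⟩, rfl⟩
    have := h.map' (LinearMap.funLeft ℚ ℚ e) (LinearMap.ker_eq_bot.2
      (LinearMap.funLeft_injective_of_surjective ℚ ℚ e he))
    exact this
  have hgood : ∀ w : Fin n → ℕ, HI.Good f w → Pool.Newt.Good a w := by
    rintro w ⟨s, hs, h1, h2, h3⟩
    let s' : Finset f.support := Finset.univ.filter fun i => i.1 ∈ s
    have hs' : ∀ i, i ∈ s' ↔ i.1 ∈ s := fun i => by simp [s']
    refine ⟨s', fun i hi => (hface w i).2 (hs ((hs' i).1 hi)), ?_, ?_, ?_⟩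
    · intro κ hκ hκ0
      obtain ⟨hκ1, hκ2⟩ := mem_Ker.1 hκ
      by_contra hne
      have hsf : Finite s := by
        refine Set.Finite.subset (f.support.finite_toSet) fun m hm => (hs hm).1
      have : Fintype s := Fintype.ofFinite s
      let e : s → f.support := fun m => ⟨m.1, (hs m.2).1⟩
      have hsum : ∀ g : f.support → ℚ, (∀ i, i ∉ s' → g i = 0) → ∑ m : s, g (e m) = ∑ i, g i := by
        intro g hg
        rw [← Finset.sum_subset (Finset.subset_univ s') (fun i _ hi => hg i hi)]
        refine Finset.sum_bij (fun m _ => e m) (fun m _ => (hs' _).2 m.2) ?_ ?_ ?_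
        · intro m _ m' _ h
          exact Subtype.ext (congrArg (fun i : f.support => i.1) h)
        · intro i hi
          exact ⟨⟨i.1, (hs' i).1 hi⟩, Finset.mem_univ _, rfl⟩
        · intro m _
          rfl
      rw [affineIndependent_iff] at h1
      have h4 := h1 Finset.univ (fun m => (κ (e m) : ℚ)) (by
          rw [hsum (fun i => (κ i : ℚ)) (fun i hi => by simp [hκ0 i hi])]
          exact_mod_cast hκ1) (by
          funext l
          rw [Finset.sum_apply]
          have := hsum (fun i => (κ i : ℚ) * (i.1 l : ℚ)) (fun i hi => by simp [hκ0 i hi])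
          simp only [Pi.smul_apply, smul_eq_mul, Pi.zero_apply]
          have h5 : ∑ i, (κ i : ℚ) * ((i.1 l : ℕ) : ℚ) = 0 := by exact_mod_cast hκ2 l
          rw [h5] at this
          exact this)
      apply hne
      funext i
      by_cases hi : i ∈ s'
      · have := h4 ⟨i.1, (hs' i).1 hi⟩ (Finset.mem_univ _)
        have h6 : (κ i : ℚ) = 0 := this
        exact_mod_cast h6
      · exact hκ0 i hi
    · let e : s' → s := fun i => ⟨i.1.1, (hs' i.1).1 i.2⟩
      have he : Function.Surjective e := by
        intro m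
        exact ⟨⟨⟨m.1, (hs m.2).1⟩, (hs' _).2 m.2⟩, rfl⟩
      have := h2.map' (LinearMap.funLeft ℚ ℚ e) (LinearMap.ker_eq_bot.2
        (LinearMap.funLeft_injective_of_surjective ℚ ℚ e he))
      exact this
    · intro l hl i hi ⟨h4, h5⟩
      refine h3 l hl ⟨i.1, (hs' i).1 hi, h4, fun m' hm' hne => ?_⟩
      exact h5 ⟨m', (hs hm').1⟩ ((hs' _).2 hm') (fun h => hne (congrArg (fun i : f.support => i.1) h))
  -- the ratio
  have hrat : ∀ w w' : Fin n → ℕ, 0 < Nw a w → ((∑ j, w' j : ℕ) : ℚ) =
      -(-((∑ j, w j : ℕ) : ℚ) / (Nw a w : ℚ)) * (Nw a w' : ℚ) →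
      (∑ l, w l) * N f w' = (∑ l, w' l) * N f w := by
    intro w w' h1 h2
    have h3 : (Nw a w : ℚ) ≠ 0 := by exact_mod_cast h1.ne'
    rw [← hN, ← hN]
    have h4 : ((∑ j, w j : ℕ) : ℚ) * (Nw a w' : ℚ) = ((∑ j, w' j : ℕ) : ℚ) * (Nw a w : ℚ) := by
      rw [h2]
      field_simp
    exact_mod_cast h4
  have hsame : ∀ w w' : Fin n → ℕ, 0 < Nw a w → Pool.Newt.Rigid a w' → 0 < Nw a w' →
      ((∑ j, w' j : ℕ) : ℚ) = -(-((∑ j, w j : ℕ) : ℚ) / (Nw a w : ℚ)) * (Nw a w' : ℚ) →
      Same f w w' := fun w w' h1 h2 h3 h4 => ⟨hrig w' h2, by rwa [← hN], hrat w w' h1 h4⟩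
  have hgen' : Gen a c := hgen
  have key := newton3_fin hCof hRcg hRec hRoo hNdg hZtb k (Fin n) f.support a c hc hgen'
    (by rwa [hpoly]) (by rwa [hpoly]) (by
      intro w h1 h2
      have h2' := h2
      rw [hN] at h2'
      rcases hB w (hrig w h1) h2' with h3 | ⟨w', h4, h5, h6⟩ | h3 | ⟨Y, l, h3, h4⟩
      · exact Or.inl (by rw [hN]; exact h3)
      · exact Or.inr (Or.inl ⟨w', hgood w' h4, by rw [hN]; exact h5, by rw [hN, hN]; exact h6⟩)
      · refine Or.inr (Or.inr (Or.inl ?_))
        intro w' h4 h5 h6 κ hκ hκ0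
        obtain ⟨hκ1, hκ2⟩ := mem_Ker.1 hκ
        have h7 := h3 w' (hsame w w' h2 h4 h5 h6)
        have : Finite (Face f w') :=
          Set.Finite.subset (f.support.finite_toSet) fun m hm => hm.1
        have : Fintype (Face f w') := Fintype.ofFinite _
        let e : Face f w' → f.support := fun m => ⟨m.1, m.2.1⟩
        have hsum : ∀ g : f.support → ℚ, (∀ i, i ∉ face a w' → g i = 0) →
            ∑ m : Face f w', g (e m) = ∑ i, g i := by
          intro g hg
          rw [← Finset.sum_subset (Finset.subset_univ (Finset.univ.filter (fun i => i ∈ face a w')))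
            (fun i _ hi => hg i (fun hi' => hi (by simpa using hi')))]
          refine Finset.sum_bij (fun m _ => e m) (fun m _ => ?_) ?_ ?_ ?_
          · rw [Finset.mem_filter]
            exact ⟨Finset.mem_univ _, (hface w' _).2 m.2⟩
          · intro m _ m' _ h
            exact Subtype.ext (congrArg (fun i : f.support => i.1) h)
          · intro i hi
            rw [Finset.mem_filter] at hi
            exact ⟨⟨i.1, (hface w' i).1 hi.2⟩, Finset.mem_univ _, rfl⟩
          · intro m _
            rfl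
        rw [affineIndependent_iff] at h7
        have h8 := h7 Finset.univ (fun m => (κ (e m) : ℚ)) (by
            rw [hsum (fun i => (κ i : ℚ)) (fun i hi => by simp [hκ0 i hi])]
            exact_mod_cast hκ1) (by
            funext l
            rw [Finset.sum_apply]
            have := hsum (fun i => (κ i : ℚ) * (i.1 l : ℚ)) (fun i hi => by simp [hκ0 i hi])
            simp only [Pi.smul_apply, smul_eq_mul, Pi.zero_apply]
            have h5 : ∑ i, (κ i : ℚ) * ((i.1 l : ℕ) : ℚ) = 0 := by exact_mod_cast hκ2 l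
            rw [h5] at this
            exact this)
        funext i
        by_cases hi : i ∈ face a w'
        · have := h8 ⟨i.1, (hface w' i).1 hi⟩ (Finset.mem_univ _)
          have h6 : (κ i : ℚ) = 0 := this
          exact_mod_cast h6
        · exact hκ0 i hi
      · refine Or.inr (Or.inr (Or.inr ⟨Finset.univ.filter (fun i => i.1 ∈ Y), fun i => l i.1, ?_, ?_⟩))
        · intro i hi
          rw [Finset.mem_filter] at hi
          exact h3 i.1 hi.2
        · intro w' h5 h6 h7
          obtain ⟨⟨m, h8, h9, h10, h11⟩, h12⟩ := h4 w' (hsame w w' h2 h5 h6 h7)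
          refine ⟨⟨⟨m, h9.1⟩, ?_, (hface w' _).2 h9, h10, ?_⟩, ?_⟩
          · rw [Finset.mem_filter]
            exact ⟨Finset.mem_univ _, h8⟩
          · intro i' hi' hne
            exact h11 i'.1 ((hface w' i').1 hi') (fun h => hne (Subtype.ext h))
          · intro i hi hif κ hκ hκ0
            rw [Finset.mem_filter] at hi
            obtain ⟨hκ1, hκ2⟩ := mem_Ker.1 hκ
            by_contra hne
            refine h12 i.1 hi.2 ((hface w' i).1 hif) ?_
            have hκi : (κ i : ℚ) ≠ 0 := by exact_mod_cast hne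
            -- the other exponents
            let Z : Finset f.support := Finset.univ.filter fun i' => i' ≠ i ∧ i' ∈ face a w'
            have hZ : ∀ i', i' ∈ Z ↔ i' ≠ i ∧ i' ∈ face a w' := fun i' => by simp [Z]
            have hsum : ∀ g : f.support → ℚ, (∀ i', i' ∉ face a w' → g i' = 0) →
                ∑ i' : Z, g i'.1 = (∑ i', g i') - g i := by
              intro g hg
              rw [Finset.sum_coe_sort Z g, ← Finset.sum_erase_eq_sub (Finset.mem_univ i)]
              refine Finset.sum_subset ?_ ?_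
              · intro i' hi'
                rw [Finset.mem_erase]
                exact ⟨((hZ i').1 hi').1, Finset.mem_univ _⟩
              · intro i' hi' hni
                rw [Finset.mem_erase] at hi'
                exact hg i' (fun h => hni ((hZ i').2 ⟨hi'.1, h⟩))
            have hs1 : ∑ i' : Z, (-(κ i'.1 : ℚ) / (κ i : ℚ)) = 1 := by
              rw [hsum (fun i' => -(κ i' : ℚ) / (κ i : ℚ)) (fun i' hi' => by simp [hκ0 i' hi']),
                ← Finset.sum_div, Finset.sum_neg_distrib]
              have : (∑ i', (κ i' : ℚ)) = 0 := by exact_mod_cast hκ1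
              rw [this]
              field_simp
              ring
            have h13 := affineCombination_mem_affineSpan (s := (Finset.univ : Finset Z))
              (w := fun i' => (-(κ i'.1 : ℚ) / (κ i : ℚ))) hs1
              (fun (i' : Z) (j : Fin n) => (i'.1.1 j : ℚ))
            rw [Finset.affineCombination_eq_linear_combination _ _ _ hs1] at h13
            have h14 : ∑ i' : Z, (-(κ i'.1 : ℚ) / (κ i : ℚ)) • (fun (j : Fin n) => (i'.1.1 j : ℚ)) =
                fun j => (i.1 j : ℚ) := by
              funext j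
              rw [Finset.sum_apply]
              simp only [Pi.smul_apply, smul_eq_mul]
              rw [hsum (fun i' => (-(κ i' : ℚ) / (κ i : ℚ)) * (i'.1 j : ℚ))
                (fun i' hi' => by simp [hκ0 i' hi'])]
              have h15 : ∑ i' : f.support, (κ i' : ℚ) * ((i'.1 j : ℕ) : ℚ) = 0 := by
                exact_mod_cast hκ2 j
              have h16 : ∑ i' : f.support, (-(κ i' : ℚ) / (κ i : ℚ)) * (i'.1 j : ℚ) =
                  -(1 / (κ i : ℚ)) * ∑ i' : f.support, (κ i' : ℚ) * ((i'.1 j : ℕ) : ℚ) := by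
                rw [Finset.mul_sum]
                refine Finset.sum_congr rfl fun i' _ => ?_
                ring
              rw [h16, h15]
              field_simp
              ring
            rw [h14] at h13
            refine affineSpan_mono ℚ ?_ h13
            rintro _ ⟨i', rfl⟩
            obtain ⟨h17, h18⟩ := (hZ i'.1).1 i'.2
            exact ⟨i'.1.1, (hface w' i'.1).1 h18, fun h => h17 (Subtype.ext h), rfl⟩)
  rwa [hpoly] at key

end Pool.Newt3.HI
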