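import Pool.Agent.H39.Newt3.Base

/-! # NEWTON3, module RLA: multiplication by `1 - c e^(τ_i)` -/

set_option autoImplicit false

namespace Pool.Newt3

open MvPolynomial Pool.Agent.H39.MonoR Pool.Agent.H75.Mono Pool.Newt Pool.Newt2

open Classical in
theorem rla_key {σ I : Type} [Fintype σ] [Fintype I] (a : I → σ → ℕ) (X : ℂ)
    (φ : Co σ I → ℤ → ℂ) (i : I) (c : ℂ) (m : I → ℤ) (N : ℤ) (u : σ → ℤ) :
    (∏ ξ, shf (Function.update φ (some (Sum.inr i)) fun v =>
      φ (some (Sum.inr i)) v - c * φ (some (Sum.inr i)) (v - 1)) m ξ (lam a u N ξ)) *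
        X ^ (∑ l, u l) =
      (∏ ξ, shf φ m ξ (lam a u N ξ)) * X ^ (∑ l, u l) -
      c * ((∏ ξ, shf φ ((Pi.single i 1 : I → ℤ) + m) ξ (lam a u N ξ)) * X ^ (∑ l, u l)) := by
  have hprod : ∀ (ψ : Co σ I → ℤ → ℂ) (v : Co σ I → ℤ), ∏ ξ, ψ ξ (v ξ) =
      ψ (some (Sum.inr i)) (v (some (Sum.inr i))) *
        ∏ ξ ∈ Finset.univ.erase (some (Sum.inr i)), ψ ξ (v ξ) := fun ψ v =>
    (Finset.mul_prod_erase Finset.univ (fun ξ => ψ ξ (v ξ)) (Finset.mem_univ _)).symm
  rw [hprod, hprod, hprod]
  have hA : ∏ ξ ∈ Finset.univ.erase (some (Sum.inr i)),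
      shf (Function.update φ (some (Sum.inr i)) fun v =>
        φ (some (Sum.inr i)) v - c * φ (some (Sum.inr i)) (v - 1)) m ξ (lam a u N ξ) =
      ∏ ξ ∈ Finset.univ.erase (some (Sum.inr i)), shf φ m ξ (lam a u N ξ) := by
    refine Finset.prod_congr rfl fun ξ hξ => ?_
    have hne := Finset.ne_of_mem_erase hξ
    rcases ξ with _ | l' | i'
    · simp [shf]
    · simp only [shf]
      rw [Function.update_of_ne hne]
    · simp only [shf]
      rw [Function.update_of_ne hne]
  have hB : ∏ ξ ∈ Finset.univ.erase (some (Sum.inr i)),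
      shf φ ((Pi.single i 1 : I → ℤ) + m) ξ (lam a u N ξ) =
      ∏ ξ ∈ Finset.univ.erase (some (Sum.inr i)), shf φ m ξ (lam a u N ξ) := by
    refine Finset.prod_congr rfl fun ξ hξ => ?_
    have hne := Finset.ne_of_mem_erase hξ
    rcases ξ with _ | l' | i'
    · rfl
    · rfl
    · have h1 : i' ≠ i := fun h => hne (by rw [h])
      show φ (some (Sum.inr i')) (lam a u N (some (Sum.inr i')) - ((Pi.single i 1 : I → ℤ) + m) i') =
        φ (some (Sum.inr i')) (lam a u N (some (Sum.inr i')) - m i')
      rw [Pi.add_apply, Pi.single_eq_of_ne h1, zero_add]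
  rw [hA, hB]
  have h1 : shf (Function.update φ (some (Sum.inr i)) fun v =>
      φ (some (Sum.inr i)) v - c * φ (some (Sum.inr i)) (v - 1)) m (some (Sum.inr i))
        (lam a u N (some (Sum.inr i))) =
      φ (some (Sum.inr i)) (lam a u N (some (Sum.inr i)) - m i) -
        c * φ (some (Sum.inr i)) (lam a u N (some (Sum.inr i)) - m i - 1) := by
    show Function.update φ (some (Sum.inr i)) (fun v =>
      φ (some (Sum.inr i)) v - c * φ (some (Sum.inr i)) (v - 1)) (some (Sum.inr i))
        (lam a u N (some (Sum.inr i)) - m i) = _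
    rw [Function.update_self]
  have h2 : shf φ m (some (Sum.inr i)) (lam a u N (some (Sum.inr i))) =
      φ (some (Sum.inr i)) (lam a u N (some (Sum.inr i)) - m i) := rfl
  have h3 : shf φ ((Pi.single i 1 : I → ℤ) + m) (some (Sum.inr i))
      (lam a u N (some (Sum.inr i))) =
      φ (some (Sum.inr i)) (lam a u N (some (Sum.inr i)) - m i - 1) := by
    show φ (some (Sum.inr i)) (lam a u N (some (Sum.inr i)) - ((Pi.single i 1 : I → ℤ) + m) i) = _
    rw [Pi.add_apply, Pi.single_eq_same]
    congr 1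
    ring
  rw [h1, h2, h3]
  ring

open Classical in
theorem sRla : SRla := by
  intro σ I _ _ a X φ hOK i c
  refine ⟨fun m N => ?_, fun h => ?_⟩
  · have h := (hOK m N).sub ((hOK ((Pi.single i 1 : I → ℤ) + m) N).mul_left c)
    exact (summable_congr fun u => rla_key a X φ i c m N u).mpr h
  · have key : ∀ (m : I → ℤ) (N : ℕ),
        PowerSeries.coeff N (SerC a X (shf (Function.update φ (some (Sum.inr i)) fun v =>
          φ (some (Sum.inr i)) v - c * φ (some (Sum.inr i)) (v - 1)) m)) =
        PowerSeries.coeff N (SerC a X (shf φ m)) -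
          c * PowerSeries.coeff N (SerC a X (shf φ ((Pi.single i 1 : I → ℤ) + m))) := by
      intro m N
      unfold SerC
      rw [PowerSeries.coeff_mk, PowerSeries.coeff_mk, PowerSeries.coeff_mk, ← tsum_mul_left,
        ← (hOK m N).tsum_sub ((hOK ((Pi.single i 1 : I → ℤ) + m) N).mul_left c)]
      exact tsum_congr fun u => rla_key a X φ i c m N u
    induction h using AddMonoidAlgebra.induction_linear with
    | zero => rw [mul_zero, map_zero, map_zero]
    | add f g hf hg => rw [mul_add, map_add, map_add, hf, hg]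
    | single m c' =>
      rw [sub_mul, one_mul, map_sub, AddMonoidAlgebra.single_mul_single, Lc_single, Lc_single,
        Lc_single]
      refine PowerSeries.ext fun N => ?_
      have h1 : PowerSeries.coeff N (c' • SerC a X (shf φ m)) =
          c' * PowerSeries.coeff N (SerC a X (shf φ m)) := by
        rw [PowerSeries.coeff_smul, smul_eq_mul]
      have h2 : PowerSeries.coeff N ((c * c') • SerC a X (shf φ ((Pi.single i 1 : I → ℤ) + m))) =
          (c * c') * PowerSeries.coeff N (SerC a X (shf φ ((Pi.single i 1 : I → ℤ) + m))) := by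
        rw [PowerSeries.coeff_smul, smul_eq_mul]
      rw [(PowerSeries.coeff (R := ℂ) N).map_sub, h1, h2, PowerSeries.coeff_smul, smul_eq_mul,
        key m N]
      ring

end Pool.Newt3
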