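import Pool.Agent.H39.Newt3.Defs

/-!
# Project NEWTON3 (MP_432c1b_ag): statements of the modules

Module XXX proves `SXxx`, with the statements of other modules as hypotheses.
-/

set_option autoImplicit false

namespace Pool.Newt3

open MvPolynomial Pool.Agent.H39.MonoR Pool.Agent.H75.Mono Pool.Newt Pool.Newt2

/-! ### algebra -/

/-- NUL: Nullstellensatz for the group ring -/
def SNul : Prop :=
  ∀ (I : Type) [Fintype I] (K : Ideal (GR I)), (∀ p : I → ℂˣ, ∃ h ∈ K, evp p h ≠ 0) → K = ⊤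

/-- TRF: from products of linear forms to products of `1 - e^β` (from NIL, KRU) -/
def STrf : Prop :=
  ∀ (I D : Type) [Fintype I] (β : D → I → ℤ) (𝒢 : Set (Finset D)) (P : Finset D),
    (∏ d ∈ P, lfC (β d) : MvPolynomial I ℂ) ∈
      Ideal.span {g | ∃ S ∈ 𝒢, g = ∏ d ∈ S, lfC (β d)} →
    ∃ h : GR I, evp (1 : I → ℂˣ) h ≠ 0 ∧
      h * ∏ d ∈ P, (1 - AddMonoidAlgebra.single (β d) 1) ∈
        Ideal.span {g : GR I | ∃ S ∈ 𝒢, g = ∏ d ∈ S, (1 - AddMonoidAlgebra.single (β d) 1)}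

/-- LCR: the lowest homogeneous component at a real point `t0` (as LOC) -/
def SLcr : Prop :=
  ∀ (σ I : Type) [Fintype σ] [Fintype I] (a : I → σ → ℕ) (s : Finset I) (α : ℚ) (K : ℕ)
    (R : Rec a s α K) (J : ℕ), R.Poly J → ∀ (t0 : I → ℝ), ∑ i, t0 i = α →
    ∀ (W : Finset σ), (∀ l ∈ W, ∑ i, (a i l : ℝ) * t0 i = -1) →
    (∀ (i : I) (m : ℕ), t0 i = -m → m ≤ J) → (Zr t0 0).card < K →
    (∏ i ∈ Zr t0 0, X i : MvPolynomial I ℂ) ∈ Ideal.span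
      ({g | ∃ κ ∈ R.Dk, κ ≠ 0 ∧ R.r κ ≠ 0 ∧ g = ∏ i ∈ Zr t0 κ, X i} ∪
        {g | ∃ δ ∈ R.Dd, g = (∏ i ∈ Zr t0 δ, X i) *
          ∏ l ∈ W.filter (fun l => 0 < ∑ i, δ i * (a i l : ℤ)), lfC (fun i => (a i l : ℤ))})

/-! ### the functional -/

open Classical in
/-- RLA: multiplication by `1 - c e^(τ_i)` -/
def SRla : Prop :=
  ∀ (σ I : Type) [Fintype σ] [Fintype I] (a : I → σ → ℕ) (X : ℂ) (φ : Co σ I → ℤ → ℂ),
    OKs a X φ → ∀ (i : I) (c : ℂ),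
    OKs a X (Function.update φ (some (Sum.inr i)) fun v =>
      φ (some (Sum.inr i)) v - c * φ (some (Sum.inr i)) (v - 1)) ∧
    ∀ h : GR I, Lc a X φ ((1 - AddMonoidAlgebra.single (Pi.single i 1) c) * h) =
      Lc a X (Function.update φ (some (Sum.inr i)) fun v =>
        φ (some (Sum.inr i)) v - c * φ (some (Sum.inr i)) (v - 1)) h

open Classical in
/-- RLB: multiplication by `1 - X e^(-ν_l)`, `ν_l = ∑ a_il τ_i` -/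
def SRlb : Prop :=
  ∀ (σ I : Type) [Fintype σ] [Fintype I] (a : I → σ → ℕ) (X : ℂ), X ≠ 0 →
    ∀ (φ : Co σ I → ℤ → ℂ), OKs a X φ → ∀ l : σ,
    (φ (some (Sum.inl l)) = fun v => if 0 ≤ v then 1 else 0) →
    OKs a X (Function.update φ (some (Sum.inl l)) fun v => if v = 0 then 1 else 0) ∧
    ∀ h : GR I, Lc a X φ ((1 - AddMonoidAlgebra.single (fun i => -(a i l : ℤ)) X) * h) =
      Lc a X (Function.update φ (some (Sum.inl l)) fun v => if v = 0 then 1 else 0) h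

/-- RLC: multiplication by `T` -/
def SRlc : Prop :=
  ∀ (σ I : Type) [Fintype σ] [Fintype I] (a : I → σ → ℕ) (X : ℂ) (φ : Co σ I → ℤ → ℂ),
    (φ none = fun v => if 1 ≤ v then 1 else 0) → ∀ h : GR I,
    Pol (PowerSeries.X * Lc a X φ h - Lc a X φ (AddMonoidAlgebra.single (fun _ => -1) 1 * h))

/-- FSM: sums with finite support -/
def SFsm : Prop :=
  ∀ (σ I : Type) [Fintype σ] [Fintype I] (a : I → σ → ℕ) (X : ℂ) (Wf : Finset σ) (Q : Finset I),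
    (∀ l ∈ Wf, ∃ i ∈ Q, a i l ≠ 0) → ∀ φ : Co σ I → ℤ → ℂ,
    (∀ l v, (v < 0 ∨ (l ∉ Wf ∧ v ≠ 0)) → φ (some (Sum.inl l)) v = 0) →
    (∀ i ∈ Q, ∃ c : ℕ, ∀ v, (c : ℤ) < v → φ (some (Sum.inr i)) v = 0) → OKs a X φ

/-- LVN: sums over lattice points which do not exist -/
def SLvn : Prop :=
  ∀ (σ I : Type) [Fintype σ] [Fintype I] (a : I → σ → ℕ) (X : ℂ) (Wf : Finset σ) (Q : Finset I)
    (φ : Co σ I → ℤ → ℂ) (c : ℕ),
    (∀ l v, (v < 0 ∨ (l ∉ Wf ∧ v ≠ 0)) → φ (some (Sum.inl l)) v = 0) →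
    (∀ i v, v < -(c : ℤ) → φ (some (Sum.inr i)) v = 0) →
    (∀ i ∈ Q, ∀ v, (c : ℤ) < v → φ (some (Sum.inr i)) v = 0) → Emp a Wf Q →
    ∀ m : I → ℤ, Pol (SerC a X (shf φ m))

/-- KLD: emptiness, from `δ` with `∑ δ_i > 0` -/
def SKld : Prop :=
  ∀ (σ I : Type) [Fintype σ] [Fintype I] (a : I → σ → ℕ) (Wf : Finset σ) (Q : Finset I)
    (δ : I → ℤ), 0 < ∑ i, δ i → (∀ l ∈ Wf, ∑ i, δ i * (a i l : ℤ) ≤ 0) →
    (∀ i, i ∉ Q → 0 ≤ δ i) → Emp a Wf Q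

/-- KLK: emptiness, from an affine relation and simplicial facets (from FNR, EXT) -/
def SKlk : Prop :=
  ∀ (σ I : Type) [Fintype σ] [Fintype I] [Nonempty I] (a : I → σ → ℕ) (α : ℚ), Simp a α →
    ∀ (Wf : Finset σ) (Q : Finset I) (t0 : I → ℝ), ∑ i, t0 i = α →
    (∀ l ∈ Wf, ∑ i, (a i l : ℝ) * t0 i = -1) → ∀ κ ∈ Ker a, κ ≠ 0 →
    (∀ i, i ∉ Q → 0 ≤ κ i) → (∀ i, i ∉ Q → t0 i ≠ 0 → 0 < κ i) → Emp a Wf Q

open Classical in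
/-- KPA: a point `p`: from the sums of `phz` to the sums of `phe` (from RLA, RLB, FSM); `Z` is the set of the
`i ∉ P` with `p_i = 1`, `Wf` the set of the `l` with `p^(ν_l) = X` -/
def SKpa : Prop :=
  ∀ (σ I : Type) [Fintype σ] [Fintype I] (a : I → σ → ℕ) (P : Finset I) (x : ℝ), 1 < x →
    ∀ (p : I → ℂˣ) (Wf : Finset σ) (Z E : Finset I), Disjoint Z P → Disjoint Z E →
    (∀ l ∈ Wf, ((pw p fun i => (a i l : ℤ) : ℂˣ) : ℂ) = (x : ℂ)⁻¹) →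
    (∀ l ∈ Wf, ∃ i, i ∉ Z ∧ i ∉ E ∧ a i l ≠ 0) → ∀ g : GR I,
    Lc a ((x : ℂ)⁻¹) (phz P) ((∏ l ∈ Wfᶜ, (1 - AddMonoidAlgebra.single (fun i => -(a i l : ℤ)) ((x : ℂ)⁻¹))) *
      (∏ i ∈ (P ∪ Z)ᶜ, (1 - AddMonoidAlgebra.single (Pi.single i 1) 1)) * g) =
    Lc a ((x : ℂ)⁻¹) (phe p Wf Z E)
      ((∏ i ∈ E, (1 - AddMonoidAlgebra.single (Pi.single i 1) ((p i : ℂ)⁻¹))) * g)

open Classical in
/-- KPB: the sums of `phe` are killed by products which leave no lattice points (from RLA, RLB, FSM, LVN) -/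
def SKpb : Prop :=
  ∀ (σ I : Type) [Fintype σ] [Fintype I] (a : I → σ → ℕ) (x : ℝ), 1 < x →
    ∀ (p : I → ℂˣ) (Wf : Finset σ) (Z E : Finset I), Disjoint Z E → (∀ i ∈ Z, p i = 1) →
    (∀ l ∈ Wf, ∃ i, i ∉ Z ∧ i ∉ E ∧ a i l ≠ 0) →
    ∀ (L : Finset σ) (Q : Finset I), L ⊆ Wf → Emp a (Wf \ L) (Q ∪ (Z ∪ E)ᶜ) → ∀ g : GR I,
    Pol (Lc a ((x : ℂ)⁻¹) (phe p Wf Z E)
      ((∏ l ∈ L, (1 - AddMonoidAlgebra.single (fun i => -(a i l : ℤ)) ((x : ℂ)⁻¹))) *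
        (∏ i ∈ Q, (1 - AddMonoidAlgebra.single (Pi.single i 1) ((p i : ℂ)⁻¹))) * g))

open Classical in
/-- KPT: the local statement at a point `p` (from KPA, KPB, KLD, KLK, LCR, TRF, POL) -/
def SKpt : Prop :=
  ∀ (σ I : Type) [Fintype σ] [Fintype I] [Nonempty I] (a : I → σ → ℕ) (α : ℚ) (K : ℕ),
    Nonempty (Rec a ∅ α K) → Fintype.card I < K → Simp a α →
    ∀ P : Finset I, (∀ i l, ¬ Val a P i l) → ∀ x : ℝ, 1 < x →
    ∀ p : I → ℂˣ, ‖((pw p fun _ => 1 : ℂˣ) : ℂ)‖ = x ^ (α : ℝ) →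
    ∃ h : GR I, evp p h ≠ 0 ∧
      ∀ g : GR I, Pol (Lc a ((x : ℂ)⁻¹) (phz P) (g * (h * yy ((x : ℂ)⁻¹) P)))

/-- RTB: RAT with denominators which do not depend on the thresholds (from TEL, FNR, MIN) -/
def SRtb : Prop :=
  ∀ (σ I : Type) [Fintype σ] [Fintype I] [Nonempty I] (a : I → σ → ℕ) (Sl : Finset (Co σ I)),
    ∃ W : Multiset (σ → ℕ), (∀ w ∈ W, Rigid a w ∧ 0 < Nw a w ∧
      ∀ ξ ∈ Sl, ξ ≠ none → lam a (fun l => (w l : ℤ)) (Nw a w) ξ = 0) ∧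
    ∀ c : ℕ, ∃ N0 : ℕ, ∀ (X : ℝ) (φ : Co σ I → ℤ → ℝ), 0 < X → X < 1 → (∀ ξ, Thr c (φ ξ)) →
      (∀ ξ ∈ Sl, Slb c (φ ξ)) → (∀ v, v ≤ 0 → φ none v = 0) →
      ∀ N, N0 ≤ N → PowerSeries.coeff N (dW a X W * Ser a X φ) = 0

open Classical in
/-- KEY: no pole of the ratio `-α` (from KPT, NUL, RTB, RLA, RLC, SUM) -/
def SKey : Prop :=
  ∀ (σ I : Type) [Fintype σ] [Fintype I] [Nonempty I] (a : I → σ → ℕ) (α : ℚ) (K : ℕ),
    Nonempty (Rec a ∅ α K) → Fintype.card I < K → Simp a α →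
    ∀ P : Finset I, (∀ i l, ¬ Val a P i l) → ∀ x : ℝ, 1 < x →
    RegC (x ^ (-(α : ℝ))) (PowerSeries.map Complex.ofRealHom (Ser a x⁻¹ (phi x P Finset.univ)))

/-! ### the universal series -/

/-- PSB: the universal series have no pole of the ratio `-α` (from KEY, EVL, EVQ, RTB, LAP) -/
def SPsb : Prop :=
  ∀ (σ I : Type) [Fintype σ] [Fintype I] [Nonempty I] (a : I → σ → ℕ) (α : ℚ) (K : ℕ),
    Nonempty (Rec a ∅ α K) → Fintype.card I < K → Simp a α →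
    ∀ x : ℝˣ, 1 < (x : ℝ) → ∀ D : Finset I → ℤ, Inv2 a D →
    (D ∅ = 0 → RegC ((x : ℝ) ^ (-(α : ℝ)))
      (PowerSeries.map (Complex.ofRealHom.comp (ev x)) (Psi a D))) ∧
    (D ∅ = 1 → RegC ((x : ℝ) ^ (-(α : ℝ)))
      (PowerSeries.map (Complex.ofRealHom.comp (ev x)) ((1 - PowerSeries.X) * Psi a D - QQ a)))

open Classical in
/-- INB: removal of denominators without poles; from numbers to Laurent polynomials (from LPZ) -/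
def SInb : Prop :=
  ∀ (Φ : PowerSeries (LaurentPolynomial ℤ)) (W : Multiset (ℕ × ℕ)) (N0 : ℕ) (B : Set (ℕ × ℕ)),
    (∀ p ∈ W, 0 < p.2) →
    (∀ x : ℝˣ, 1 < (x : ℝ) → ∀ N, N0 ≤ N →
      PowerSeries.coeff N (PowerSeries.map (ev x) (dP W * Φ)) = 0) →
    (∀ p ∈ W, p ∈ B → ∀ x : ℝˣ, 1 < (x : ℝ) → RegC ((x : ℝ) ^ ((p.1 : ℝ) / (p.2 : ℝ)))
      (PowerSeries.map (Complex.ofRealHom.comp (ev x)) Φ)) →
    ∀ N, N0 ≤ N → PowerSeries.coeff N (dP (W.filter fun p => p ∉ B) * Φ) = 0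

/-- ZTB: the motivic zeta function has no poles in `B` (from ZFM, MBA, PSI, PSB, INB, MEM) -/
def SZtb : Prop :=
  ∀ (k : Type) [Field k] [Algebra k ℂ] (σ I : Type) [Fintype σ] [Fintype I] [Nonempty I]
    (a : I → σ → ℕ) (c : I → k), (∀ i, c i ≠ 0) → Ndg a c → ∀ B : Set ℚ,
    (∀ α ∈ B, (Simp a α ∧ ∃ K, Fintype.card I < K ∧ Nonempty (Rec a ∅ α K)) ∨
      ∃ (Y : Finset I) (l : I → σ), (∀ i ∈ Y, a i (l i) = 1) ∧ ∀ w, Rigid a w → 0 < Nw a w →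
        ((∑ j, w j : ℕ) : ℚ) = -α * (Nw a w : ℚ) → Lab a Y l w) →
    ∃ R : Finset (σ → ℕ), (∀ w ∈ R, Rigid a w ∧ 0 < Nw a w ∧
      -((∑ j, w j : ℕ) : ℚ) / (Nw a w : ℚ) ∉ B) ∧
      Zmot k (poly a c) ∈ RS k ({((-1 : ℤ), (1 : ℕ))} ∪
        {p | ∃ w ∈ R, p = (-((∑ j, w j : ℕ) : ℤ), Nw a w)})

end Pool.Newt3
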